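import Pool.Agent.X76.Det1

set_option autoImplicit false

/-!
Balanced classes with an upper bound, and balanced orientations without an order.
-/

namespace Pool.Agent.Helper37LA

open Finset Pool.Agent.X76.Det

/-- a decomposition in balanced classes, with an upper bound for the small entries -/
theorem classes2 {X : Type} [Fintype X] [DecidableEq X] (D : ℕ) (a b : X → ℕ) :
    ∀ (o : X → X → ℕ), (∀ x, ∑ y, o x y = D * a x) → (∀ y, ∑ x, o x y = D * b y) →
    ∃ T : Fin D → X → X → ℕ, (∀ c x, ∑ y, T c x y = a x) ∧ (∀ c y, ∑ x, T c x y = b y) ∧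
      (∀ x y, ∑ c, T c x y = o x y) ∧ (∀ x y, D ≤ o x y → ∀ c, 1 ≤ T c x y) ∧
      ∀ x y, o x y ≤ D → ∀ c, T c x y ≤ 1 := by
  induction D with
  | zero =>
    intro o h1 h2
    refine ⟨fun c => c.elim0, fun c => c.elim0, fun c => c.elim0, ?_, fun x y _ c => c.elim0,
      fun x y _ c => c.elim0⟩
    intro x y
    have h3 := h1 x
    rw [Nat.zero_mul] at h3
    have h4 := (Finset.sum_eq_zero_iff.1 h3) y (mem_univ y)
    rw [h4]
    simp
  | succ D ih =>
    intro o h1 h2
    obtain ⟨T0, hT1, hT2, hT3⟩ := one_class o (D + 1) (Nat.succ_pos D) a b h1 h2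
    have hle : ∀ x y, T0 x y ≤ o x y := by
      intro x y
      refine (hT3 x y).2.trans ?_
      rw [Nat.add_sub_cancel]
      rcases Nat.eq_zero_or_pos (o x y) with h | h
      · rw [h, Nat.zero_add, Nat.div_eq_of_lt (Nat.lt_succ_self D)]
      · rw [Nat.div_le_iff_le_mul_add_pred (Nat.succ_pos D)]
        nlinarith
    obtain ⟨T, h3, h4, h5, h6, h7⟩ := ih (fun x y => o x y - T0 x y)
      (by
        intro x
        rw [Finset.sum_tsub_distrib _ (fun y _ => hle x y), h1, hT1]
        rw [Nat.add_mul, one_mul, Nat.add_sub_cancel])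
      (by
        intro y
        rw [Finset.sum_tsub_distrib _ (fun x _ => hle x y), h2, hT2]
        rw [Nat.add_mul, one_mul, Nat.add_sub_cancel])
    refine ⟨Fin.cons T0 T, ?_, ?_, ?_, ?_, ?_⟩
    · intro c x
      refine Fin.cases ?_ (fun c => ?_) c
      · simpa using hT1 x
      · simpa using h3 c x
    · intro c y
      refine Fin.cases ?_ (fun c => ?_) c
      · simpa using hT2 y
      · simpa using h4 c y
    · intro x y
      rw [Fin.sum_univ_succ]
      simp only [Fin.cons_zero, Fin.cons_succ, h5]
      have := hle x y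
      omega
    · intro x y hxy c
      obtain ⟨h7, h8⟩ := hT3 x y
      refine Fin.cases ?_ (fun c => ?_) c
      · simp only [Fin.cons_zero]
        refine le_trans ?_ h7
        exact (Nat.one_le_div_iff (Nat.succ_pos D)).2 hxy
      · simp only [Fin.cons_succ]
        apply h6 x y
        rw [Nat.add_sub_cancel] at h8
        have hD : 0 < D := Fin.pos c
        have h9 : (o x y + D) / (D + 1) ≤ o x y - D := by
          obtain ⟨e, he⟩ : ∃ e, o x y = D + 1 + e := ⟨o x y - (D + 1), by omega⟩
          rw [he, show D + 1 + e - D = 1 + e by omega]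
          apply Nat.lt_succ_iff.1
          rw [Nat.div_lt_iff_lt_mul (Nat.succ_pos D)]
          nlinarith [Nat.zero_le (D * e)]
        omega
    · intro x y hxy c
      obtain ⟨h8, h9⟩ := hT3 x y
      refine Fin.cases ?_ (fun c => ?_) c
      · simp only [Fin.cons_zero]
        refine h9.trans ?_
        rw [Nat.add_sub_cancel]
        apply Nat.lt_succ_iff.1
        rw [Nat.div_lt_iff_lt_mul (Nat.succ_pos D)]
        omega
      · simp only [Fin.cons_succ]
        apply h7 x y
        rcases Nat.lt_or_ge D (o x y) with h | h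
        · have h10 : 1 ≤ T0 x y := by
            refine le_trans ?_ h8
            exact (Nat.one_le_div_iff (Nat.succ_pos D)).2 h
          omega
        · omega

/-- a balanced orientation -/
theorem orient2 {X : Type} [Fintype X] (w : X → X → ℕ)
    (hs : ∀ x y, w x y = w y x) (h0 : ∀ x, w x x = 0) (a : X → ℕ)
    (h1 : ∀ x, ∑ y, w x y = 2 * a x) :
    ∃ o : X → X → ℕ, (∀ x y, o x y + o y x = w x y) ∧ (∀ x, ∑ y, o x y = a x) ∧
      (∀ y, ∑ x, o x y = a y) ∧ ∀ x y, w x y / 2 ≤ o x y := by
  let _ : LinearOrder X := LinearOrder.lift' (Fintype.equivFin X) (Fintype.equivFin X).injective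
  exact orient w hs h0 a h1

end Pool.Agent.Helper37LA
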