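import Pool.Agent.Helper37LA.A
import Pool.Agent.X76.Det7

set_option autoImplicit false

/-!
Linear forests from quotients: the numerical part.
-/

namespace Pool.Agent.Helper37LA

open Finset SimpleGraph Pool.Agent.X76.Det

/-- weights with the extra vertex -/
def gO {X : Type} (g : X → ℕ) : Option X → ℕ
  | none => 1
  | some i => g i

/-- pattern with the extra vertex -/
def aO {X : Type} (A : X → X → ℕ) (s : X → ℕ) : Option X → Option X → ℕ
  | none, none => 0
  | none, some j => s j
  | some i, none => s i
  | some i, some j => A i j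

/-- row sums -/
def rO {X : Type} (g : X → ℕ) (b : ℕ) : Option X → ℕ
  | none => b
  | some i => g i

/-- the loops -/
def lO {X : Type} (l : X → ℕ) (t : ℕ) : Option X → ℕ
  | none => t
  | some i => l i

theorem exists_classes {X : Type} [Fintype X] [DecidableEq X] (g : X → ℕ) (A : X → X → ℕ)
    (s : X → ℕ) (K : ℕ) (hK : 1 ≤ K) (hg : ∀ i, 1 ≤ g i) (hA : ∀ i j, A i j = A j i)
    (hrow : ∀ i, ∑ j, (if j = i then g j - 1 else g j) * A i j + s i = 2 * K)
    (hR : 2 * K ≤ ∑ i, g i * s i) :
    ∃ m : Fin K → Option X → Option X → ℕ,
      (∀ c x y, m c x y = m c y x) ∧ (∀ c x, Even (m c x x)) ∧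
      (∀ x y, x ≠ y → ∑ c, m c x y = gO g x * gO g y * aO A s x y) ∧
      (∀ i, ∑ c, m c (some i) (some i) = g i * ((g i - 1) * A i i)) ∧
      (∀ c, m c none none = 0) ∧
      (∀ c i, ∑ y, m c (some i) y = 2 * g i) ∧
      (∀ c x, Even (∑ y, m c x y)) ∧
      (∀ c, ∃ i, 1 ≤ m c none (some i)) ∧
      ∀ i j, i ≠ j → 2 * K ≤ g i * g j * A i j + 1 → ∀ c, 1 ≤ m c (some i) (some j) := by
  classical
  -- loops
  have hev : ∀ i, Even (g i * ((g i - 1) * A i i)) := by
    intro i
    rw [← mul_assoc]
    exact (Nat.even_mul_pred_self (g i)).mul_right _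
  choose l hl using fun i => hev i
  have hl2 : ∀ i, g i * ((g i - 1) * A i i) = 2 * l i := fun i => by rw [hl i]; ring
  -- symmetric sums
  let F : X → X → ℕ := fun i j => if j = i then g i * ((g i - 1) * A i i) else g i * g j * A i j
  have hFs : ∀ i j, F i j = F j i := by
    intro i j
    simp only [F]
    by_cases h : j = i
    · subst h; rfl
    · rw [if_neg h, if_neg (Ne.symm h), hA i j]; ring
  have hF : ∀ i, g i * ∑ j, (if j = i then g j - 1 else g j) * A i j = ∑ j, F i j := by
    intro i
    rw [Finset.mul_sum]
    apply Finset.sum_congr rfl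
    intro j _
    simp only [F]
    by_cases h : j = i
    · subst h; rw [if_pos rfl, if_pos rfl]
    · rw [if_neg h, if_neg h]; ring
  have hF2 : ∀ i, ∑ j, F i j + g i * s i = 2 * (K * g i) := by
    intro i
    rw [← hF, ← Nat.mul_add, hrow i]
    ring
  have hFo : ∀ i, ∑ j, F i j = 2 * l i + ∑ j, (if i = j then 0 else g i * g j * A i j) := by
    intro i
    rw [← Finset.add_sum_erase univ _ (mem_univ i),
      ← Finset.add_sum_erase univ (fun j => if i = j then 0 else g i * g j * A i j) (mem_univ i),
      if_pos rfl, zero_add]
    congr 1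
    · simp only [F, if_true]
      exact hl2 i
    · apply Finset.sum_congr rfl
      intro j hj
      have hj' := Finset.ne_of_mem_erase hj
      simp only [F]
      rw [if_neg hj', if_neg (Ne.symm hj')]
  have hRe : Even (∑ i, g i * s i) := by
    have h1 : Even (∑ i, ∑ j, F i j) := even_sum_symm F hFs (fun i => by
      simp only [F, if_true]
      exact hev i) univ
    have h2 : ∑ i, ∑ j, F i j + ∑ i, g i * s i = 2 * ∑ i, K * g i := by
      rw [← Finset.sum_add_distrib, Finset.mul_sum]
      exact Finset.sum_congr rfl fun i _ => hF2 i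
    have h3 : Even (∑ i, ∑ j, F i j + ∑ i, g i * s i) := by
      rw [h2]; exact even_two_mul _
    exact (Nat.even_add.1 h3).1 h1
  obtain ⟨R, hR2⟩ := hRe
  have hR3 : ∑ i, g i * s i = 2 * R := by rw [hR2]; ring
  have hRK : K ≤ R := by omega
  -- the orientation
  let w : Option X → Option X → ℕ := fun u v => if u = v then 0 else gO g u * gO g v * aO A s u v
  have haO : ∀ u v, aO A s u v = aO A s v u := by
    rintro (_ | i) (_ | j)
    · rfl
    · rfl
    · rfl
    · exact hA i j
  have hws : ∀ u v, w u v = w v u := by
    intro u v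
    simp only [w]
    by_cases h : u = v
    · rw [if_pos h, if_pos h.symm]
    · rw [if_neg h, if_neg (Ne.symm h), haO u v]; ring
  have hw0 : ∀ u, w u u = 0 := fun u => if_pos rfl
  have hwrow : ∀ u, ∑ v, w u v = 2 * (lO (fun i => K * g i - l i) R u) := by
    rintro (_ | i)
    · rw [Fintype.sum_option, hw0, zero_add]
      change _ = 2 * R
      rw [← hR3]
      apply Finset.sum_congr rfl
      intro j _
      simp [w, gO, aO]
    · rw [Fintype.sum_option]
      change _ = 2 * (K * g i - l i)
      have h1 : w (some i) none = g i * s i := by simp [w, gO, aO]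
      have h2 : ∑ j, w (some i) (some j) = ∑ j, (if i = j then 0 else g i * g j * A i j) := by
        apply Finset.sum_congr rfl
        intro j _
        simp only [w, gO, aO, Option.some.injEq]
      rw [h1, h2]
      have h3 := hF2 i
      have h4 := hFo i
      omega
  obtain ⟨o, ho1, ho2, ho3, ho4⟩ := orient2 w hws hw0 _ hwrow
  have hod : ∀ u, o u u = 0 := by
    intro u
    have := ho1 u u
    rw [hw0] at this
    omega
  -- the number of classes at the extra vertex
  obtain ⟨b, t, hbt, htK⟩ : ∃ b t, K * b = R + t ∧ t < K := by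
    refine ⟨(R + (K - 1)) / K, K * ((R + (K - 1)) / K) - R, ?_, ?_⟩
    · have h1 := Nat.div_add_mod (R + (K - 1)) K
      have h2 := Nat.mod_lt (R + (K - 1)) hK
      omega
    · have h1 := Nat.div_add_mod (R + (K - 1)) K
      have h2 := Nat.mod_lt (R + (K - 1)) hK
      omega
  let oL : Option X → Option X → ℕ := fun u v => o u v + if u = v then lO l t u else 0
  have hlK : ∀ i, l i ≤ K * g i := by
    intro i
    have h3 := hF2 i
    have h4 := hFo i
    omega
  have hrows : ∀ u, lO (fun i => K * g i - l i) R u + lO l t u = K * rO g b u := by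
    rintro (_ | i)
    · simp only [lO, rO]; omega
    · simp only [lO, rO]
      have := hlK i
      omega
  obtain ⟨T, hT1, hT2, hT3, hT4, hT5⟩ := classes2 K (rO g b) (rO g b) oL
    (by
      intro u
      simp only [oL]
      rw [Finset.sum_add_distrib, ho2, ← hrows u]
      congr 1
      simp)
    (by
      intro u
      simp only [oL]
      rw [Finset.sum_add_distrib, ho3, ← hrows u]
      congr 1
      simp)
  have hoff : ∀ u v, u ≠ v → oL u v = o u v := by
    intro u v h
    simp only [oL]
    rw [if_neg h, add_zero]
  have hdg : ∀ u, oL u u = lO l t u := by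
    intro u
    simp only [oL, if_true, hod, zero_add]
  let m : Fin K → Option X → Option X → ℕ := fun c u v =>
    if u = none ∧ v = none then 0 else T c u v + T c v u
  have hm : ∀ c i v, m c (some i) v = T c (some i) v + T c v (some i) := by
    intro c i v
    simp only [m]
    rw [if_neg]
    rintro ⟨h, -⟩
    cases h
  have hm' : ∀ c u i, m c u (some i) = T c u (some i) + T c (some i) u := by
    intro c u i
    simp only [m]
    rw [if_neg]
    rintro ⟨-, h⟩
    cases h
  have hm0 : ∀ c, m c none none = 0 := fun c => if_pos ⟨rfl, rfl⟩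
  have hms : ∀ c u v, m c u v = m c v u := by
    intro c u v
    simp only [m]
    by_cases h : u = none ∧ v = none
    · rw [if_pos h, if_pos ⟨h.2, h.1⟩]
    · rw [if_neg h, if_neg fun h' => h ⟨h'.2, h'.1⟩, add_comm]
  refine ⟨m, hms, ?_, ?_, ?_, hm0, ?_, ?_, ?_, ?_⟩
  · rintro c (_ | i)
    · rw [hm0]; exact Even.zero
    · rw [hm]; exact Even.add_self _
  · intro u v huv
    have h1 : ∀ c, m c u v = T c u v + T c v u := by
      intro c
      simp only [m]
      rw [if_neg]
      rintro ⟨h1, h2⟩
      exact huv (h1.trans h2.symm)
    rw [Finset.sum_congr rfl fun c _ => h1 c, Finset.sum_add_distrib, hT3, hT3, hoff u v huv,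
      hoff v u huv.symm, ho1]
    simp only [w]
    rw [if_neg huv]
  · intro i
    rw [Finset.sum_congr rfl fun c _ => hm c i (some i), Finset.sum_add_distrib, hT3, hdg]
    change l i + l i = _
    rw [hl2]; ring
  · intro c i
    rw [Finset.sum_congr rfl fun v _ => hm c i v, Finset.sum_add_distrib, hT1, hT2]
    change g i + g i = _
    ring
  · rintro c (_ | i)
    · rw [Fintype.sum_option, hm0, zero_add,
        Finset.sum_congr rfl fun j _ => hm' c none j, Finset.sum_add_distrib]
      have h1 := hT1 c none
      have h2 := hT2 c none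
      rw [Fintype.sum_option] at h1 h2
      have h3 : ∑ j, T c none (some j) = ∑ j, T c (some j) none := by omega
      rw [h3]
      exact Even.add_self _
    · rw [Finset.sum_congr rfl fun v _ => hm c i v, Finset.sum_add_distrib, hT1, hT2]
      exact Even.add_self _
  · intro c
    have h1 := hT1 c none
    rw [Fintype.sum_option] at h1
    change T c none none + _ = b at h1
    have h2 : 0 < ∑ j, T c none (some j) := by
      rcases Nat.lt_or_ge b 2 with hb | hb
      · have hb1 : b = 1 := by
          rcases Nat.eq_zero_or_pos b with h | h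
          · subst h
            rw [Nat.mul_zero] at hbt
            omega
          · omega
        subst hb1
        rw [Nat.mul_one] at hbt
        have ht0 : t = 0 := by omega
        have h3 : T c none none = 0 := by
          have h4 := hT3 none none
          rw [hdg] at h4
          change _ = t at h4
          rw [ht0] at h4
          exact (Finset.sum_eq_zero_iff.1 h4) c (mem_univ c)
        omega
      · have h3 : T c none none ≤ 1 := by
          apply hT5
          rw [hdg]
          change t ≤ K
          omega
        omega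
    obtain ⟨j, -, hj⟩ := Finset.exists_ne_zero_of_sum_ne_zero (Nat.pos_iff_ne_zero.1 h2)
    refine ⟨j, ?_⟩
    rw [hm']
    omega
  · intro i j hij hprod c
    have hne : (some i : Option X) ≠ some j := by
      intro h
      exact hij (Option.some.inj h)
    have h1 := ho1 (some i) (some j)
    have h2 : w (some i) (some j) = g i * g j * A i j := by
      simp only [w]
      rw [if_neg hne]
      rfl
    rw [h2] at h1
    rw [hm]
    have h5 : K ≤ o (some i) (some j) ∨ K ≤ o (some j) (some i) := by omega
    rcases h5 with h | h
    · have := hT4 (some i) (some j) (by rw [hoff _ _ hne]; exact h) c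
      omega
    · have := hT4 (some j) (some i) (by rw [hoff _ _ hne.symm]; exact h) c
      omega

end Pool.Agent.Helper37LA
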