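import Pool.Agent.Helper37LA.B

set_option autoImplicit false

/-!
Linear forests in graphs with homogeneous classes.
-/

namespace Pool.Agent.Helper37LA

open Finset SimpleGraph Pool.Agent.X76.Det

variable {V X : Type} [Fintype V] [Fintype X]

/-- adjacency of distinct vertices depends only on their classes -/
def Homog (G : SimpleGraph V) (f : V → X) : Prop :=
  ∀ x y x' y', x ≠ y → x' ≠ y' → f x = f x' → f y = f y' → G.Adj x y → G.Adj x' y'

open Classical in
/-- the pattern -/
noncomputable def pat (G : SimpleGraph V) (f : V → X) (i j : X) : ℕ :=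
  if ∃ x y, x ≠ y ∧ f x = i ∧ f y = j ∧ G.Adj x y then 1 else 0

theorem pat_le (G : SimpleGraph V) (f : V → X) (i j : X) : pat G f i j ≤ 1 := by
  unfold pat
  split_ifs <;> omega

theorem pat_symm (G : SimpleGraph V) (f : V → X) (i j : X) : pat G f i j = pat G f j i := by
  have h1 : ∀ i j, (∃ x y, x ≠ y ∧ f x = i ∧ f y = j ∧ G.Adj x y) →
      ∃ x y, x ≠ y ∧ f x = j ∧ f y = i ∧ G.Adj x y := by
    rintro i j ⟨x, y, h1, h2, h3, h4⟩
    exact ⟨y, x, h1.symm, h3, h2, h4.symm⟩
  unfold pat
  by_cases h : ∃ x y, x ≠ y ∧ f x = i ∧ f y = j ∧ G.Adj x y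
  · rw [if_pos h, if_pos (h1 i j h)]
  · rw [if_neg h, if_neg fun h' => h (h1 j i h')]

theorem pat_of_adj {G : SimpleGraph V} {f : V → X} {u v : V} (h : G.Adj u v) :
    pat G f (f u) (f v) = 1 := if_pos ⟨u, v, h.ne, rfl, rfl, h⟩

theorem adj_iff {G : SimpleGraph V} {f : V → X} (hh : Homog G f) {u v : V} (huv : u ≠ v) :
    G.Adj u v ↔ pat G f (f u) (f v) = 1 := by
  refine ⟨pat_of_adj, fun h => ?_⟩
  unfold pat at h
  split_ifs at h with h1
  obtain ⟨x, y, h2, h3, h4, h5⟩ := h1
  exact hh x y u v h2 huv h3 h4 h5

theorem degree_formula {G : SimpleGraph V} {f : V → X} [DecidableEq X] (hh : Homog G f) (v : V) :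
    (G.neighborSet v).ncard = ∑ j, (if j = f v then {w | f w = j}.ncard - 1 else
      {w | f w = j}.ncard) * pat G f (f v) j := by
  classical
  have h1 : (G.neighborSet v).ncard = (univ.filter fun w => G.Adj v w).card := by
    rw [Set.ncard_eq_toFinset_card']
    congr 1
    ext w
    simp
  have h2 : (univ.filter fun w => G.Adj v w).card =
      ∑ j, ((univ.filter fun w => G.Adj v w).filter fun w => f w = j).card :=
    Finset.card_eq_sum_card_fiberwise (fun w _ => mem_univ (f w))
  rw [h1, h2]
  apply Finset.sum_congr rfl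
  intro j _
  have h3 : {w | f w = j}.ncard = (univ.filter fun w => f w = j).card := by
    rw [Set.ncard_eq_toFinset_card']
    congr 1
    ext w
    simp
  have hle := pat_le G f (f v) j
  rcases Nat.eq_zero_or_pos (pat G f (f v) j) with h0 | h0
  · rw [h0, Nat.mul_zero, Finset.card_eq_zero]
    apply Finset.filter_eq_empty_iff.2
    intro w hw hj
    rw [mem_filter] at hw
    have h4 := pat_of_adj (f := f) hw.2
    rw [hj, h0] at h4
    omega
  · have h5 : pat G f (f v) j = 1 := by omega
    rw [h5, Nat.mul_one]
    by_cases hj : j = f v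
    · rw [if_pos hj, h3]
      have h6 : v ∈ univ.filter fun w => f w = j := by
        rw [mem_filter]
        exact ⟨mem_univ v, hj.symm⟩
      rw [← Finset.card_erase_of_mem h6]
      congr 1
      ext w
      simp only [mem_filter, mem_univ, true_and, mem_erase]
      constructor
      · rintro ⟨h7, h8⟩
        exact ⟨h7.ne.symm, h8⟩
      · rintro ⟨h7, h8⟩
        refine ⟨?_, h8⟩
        rw [adj_iff hh (Ne.symm h7), h8]
        exact h5
    · rw [if_neg hj, h3]
      congr 1
      ext w
      simp only [mem_filter, mem_univ, true_and]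
      constructor
      · rintro ⟨h7, h8⟩
        exact h8
      · intro h8
        refine ⟨?_, h8⟩
        rw [adj_iff hh (by rintro rfl; exact hj h8.symm), h8]
        exact h5

theorem cov_core (G : SimpleGraph V) (f : V → X) (hf : Function.Surjective f) (hh : Homog G f)
    (K : ℕ) (hK : 1 ≤ K) (hconn : G.Connected) (hdeg : ∀ v, (G.neighborSet v).ncard + 1 ≤ 2 * K)
    (hprod : ∀ x y, G.Adj x y → f x ≠ f y →
      2 * K ≤ {w | f w = f x}.ncard * {w | f w = f y}.ncard + 1) :
    H931R3.LA.Cov G K := by
  classical
  obtain ⟨v0⟩ := hconn.nonempty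
  let g : X → ℕ := fun i => {w | f w = i}.ncard
  let A : X → X → ℕ := pat G f
  have hg : ∀ i, 1 ≤ g i := by
    intro i
    obtain ⟨v, hv⟩ := hf i
    exact (Set.ncard_pos (Set.toFinite _)).2 ⟨v, hv⟩
  let dX : X → ℕ := fun i => ∑ j, (if j = i then g j - 1 else g j) * A i j
  have hdX : ∀ v, (G.neighborSet v).ncard = dX (f v) := fun v => degree_formula hh v
  have hdX1 : ∀ i, dX i + 1 ≤ 2 * K := by
    intro i
    obtain ⟨v, rfl⟩ := hf i
    rw [← hdX]
    exact hdeg v
  let s : X → ℕ := fun i => 2 * K - dX i
  have hrow : ∀ i, ∑ j, (if j = i then g j - 1 else g j) * A i j + s i = 2 * K := by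
    intro i
    have h1 := hdX1 i
    change dX i + (2 * K - dX i) = 2 * K
    omega
  -- the total
  have hcard : ∑ i, g i = Fintype.card V := by
    have h2 : (univ : Finset V).card = ∑ j, ((univ : Finset V).filter fun w => f w = j).card :=
      Finset.card_eq_sum_card_fiberwise (fun w _ => mem_univ (f w))
    rw [← Finset.card_univ, h2]
    apply Finset.sum_congr rfl
    intro j _
    simp only [g]
    rw [Set.ncard_eq_toFinset_card']
    congr 1
    ext w
    simp
  have hn1 : 1 ≤ Fintype.card V := Fintype.card_pos_iff.2 ⟨v0⟩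
  have hR : 2 * K ≤ ∑ i, g i * s i := by
    rcases Nat.lt_or_ge (Fintype.card V) (2 * K) with hn | hn
    · have hd : ∀ i, dX i + 1 ≤ Fintype.card V := by
        intro i
        obtain ⟨v, rfl⟩ := hf i
        rw [← hdX]
        have h1 : (G.neighborSet v).ncard < (Set.univ : Set V).ncard := by
          apply Set.ncard_lt_ncard _ (Set.toFinite _)
          rw [Set.ssubset_univ_iff]
          intro h2
          have h3 : v ∈ G.neighborSet v := by rw [h2]; trivial
          exact G.loopless.irrefl v h3
        rw [Set.ncard_univ, Nat.card_eq_fintype_card] at h1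
        exact h1
      have h1 : ∑ i, g i * (2 * K + 1 - Fintype.card V) ≤ ∑ i, g i * s i := by
        apply Finset.sum_le_sum
        intro i _
        apply Nat.mul_le_mul_left
        have := hd i
        change _ ≤ 2 * K - dX i
        omega
      rw [← Finset.sum_mul, hcard] at h1
      refine le_trans ?_ h1
      obtain ⟨e, he⟩ : ∃ e, 2 * K = Fintype.card V + e := ⟨2 * K - Fintype.card V, by omega⟩
      rw [he, show Fintype.card V + e + 1 - Fintype.card V = e + 1 by omega]
      nlinarith [Nat.mul_le_mul_right e hn1]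
    · have h1 : ∑ i, g i * 1 ≤ ∑ i, g i * s i := by
        apply Finset.sum_le_sum
        intro i _
        apply Nat.mul_le_mul_left
        have := hdX1 i
        change 1 ≤ 2 * K - dX i
        omega
      rw [← Finset.sum_mul, hcard, Nat.mul_one] at h1
      exact hn.trans h1
  obtain ⟨m, hm1, hm2, hm3, hm4, hm5, hm6, hm7, hm8, hm9⟩ :=
    exists_classes g A s K hK hg (pat_symm G f) hrow hR
  -- connectedness
  have hadj : ∀ c u v, G.Adj u v → (supp (m c)).Reachable (some (f u)) (some (f v)) := by
    intro c u v huv
    by_cases h : f u = f v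
    · rw [h]
    · have h1 : 1 ≤ m c (some (f u)) (some (f v)) := by
        apply hm9 _ _ h _ c
        have h2 : A (f u) (f v) = 1 := pat_of_adj huv
        rw [h2, Nat.mul_one]
        exact hprod u v huv h
      have h2 : (supp (m c)).Adj (some (f u)) (some (f v)) := by
        refine ⟨fun h3 => h (Option.some.inj h3), h1, ?_⟩
        rw [hm1]
        exact h1
      exact h2.reachable
  have hreach : ∀ c u v, G.Reachable u v →
      (supp (m c)).Reachable (some (f u)) (some (f v)) := by
    intro c u v huv
    obtain ⟨p⟩ := huv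
    induction p with
    | nil => exact Reachable.refl _
    | cons h p ih => exact (hadj c _ _ h).trans ih
  have hcon : ∀ c, (supp (m c)).Connected := by
    intro c
    rw [SimpleGraph.connected_iff_exists_forall_reachable]
    refine ⟨some (f v0), ?_⟩
    have h1 : ∀ i : X, (supp (m c)).Reachable (some (f v0)) (some i) := by
      intro i
      obtain ⟨v, rfl⟩ := hf i
      exact hreach c v0 v (hconn.preconnected v0 v)
    rintro (_ | i)
    · obtain ⟨i, hi⟩ := hm8 c
      have h2 : (supp (m c)).Adj (some i) none := by
        refine ⟨by simp, ?_, hi⟩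
        rw [hm1]
        exact hi
      exact (h1 i).trans h2.reachable
    · exact h1 i
  have haO : ∀ u v, aO A s u v = aO A s v u := by
    rintro (_ | i) (_ | j)
    · rfl
    · rfl
    · rfl
    · exact pat_symm G f i j
  have hSt : StP (fun u : Option X => u ≠ none) (gO g) (aO A s) m := by
    refine ⟨?_, hm1, hm2, hm3, ?_, ?_, ?_, hm7, hcon⟩
    · rintro (_ | i) h
      · exact absurd rfl h
      · exact hg i
    · rintro (_ | i) h
      · exact absurd rfl h
      · exact hm4 i
    · rintro c (_ | i) h
      · exact hm5 c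
      · exact absurd (by simp) h
    · rintro c (_ | i) h
      · exact absurd rfl h
      · exact hm6 c i
  obtain ⟨Y, hY, π, g', M, h1, h2, h3, h4, h5⟩ := detachP _ (Option X) _ _ _ m haO hSt rfl
  obtain ⟨e, he⟩ := fib_equiv π (Option.map f) (by
    rintro (_ | i)
    · rw [h2 none (by simp)]
      have h6 : {w : Option V | Option.map f w = none} = {none} := by
        ext w
        simp
      rw [h6, Set.ncard_singleton]
    · rw [h1 (some i) (by simp)]
      change {w | f w = i}.ncard = _
      have h6 : {w : Option V | Option.map f w = some i} = some '' {w | f w = i} := by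
        ext w
        rcases w with _ | w
        · simp
        · simp
      rw [h6, Set.ncard_image_of_injective _ (Option.some_injective V)])
  let ι : V → Y := fun v => e.symm (some v)
  have hιi : Function.Injective ι := e.symm.injective.comp (Option.some_injective V)
  have hιπ : ∀ v, π (ι v) = some (f v) := by
    intro v
    rw [← he, e.apply_symm_apply]
    rfl
  have hg' : ∀ y, g' y = 1 := by
    intro y
    by_cases h : π y = none
    · rw [h4 y (by simpa using h), h]
      rfl
    · exact h3 y h
  let z : Y := e.symm none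
  have hz : ∀ y, y ≠ z → π y ≠ none := by
    intro y hy h
    apply hy
    rw [← he] at h
    have h6 : e y = none := by
      rcases hey : e y with _ | v
      · rfl
      · rw [hey] at h
        cases h
    change y = e.symm none
    rw [← h6, e.symm_apply_apply]
  let F : Fin K → SimpleGraph V := fun c =>
    { Adj := fun u v => u ≠ v ∧ 1 ≤ M c (ι u) (ι v)
      symm := ⟨fun u v h => ⟨h.1.symm, by rw [h5.symm]; exact h.2⟩⟩
      loopless := ⟨fun u h => h.1 rfl⟩ }
  refine ⟨F, ?_, ?_⟩
  · intro c
    refine lf_of_class (M c) (h5.symm c) z ?_ (h5.conn c) ι hιi ?_ (F c) ?_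
    · intro y hy
      rw [h5.deg c y (hz y hy), hg']
    · intro w h
      have := e.symm.injective h
      cases this
    · intro u v h
      exact h.2
  · ext u v
    rw [iSup_adj]
    constructor
    · rintro ⟨c, h6, h7⟩
      have h8 := h5.mult (ι u) (ι v) (hιi.ne h6)
      have h9 : M c (ι u) (ι v) ≤ ∑ c, M c (ι u) (ι v) :=
        Finset.single_le_sum (f := fun c => M c (ι u) (ι v)) (fun i _ => Nat.zero_le _)
          (mem_univ c)
      rw [hg', hg', hιπ, hιπ, one_mul, one_mul] at h8
      change _ = pat G f (f u) (f v) at h8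
      rw [adj_iff hh h6]
      have h10 := pat_le G f (f u) (f v)
      omega
    · intro h6
      have h8 := h5.mult (ι u) (ι v) (hιi.ne h6.ne)
      rw [hg', hg', hιπ, hιπ, one_mul, one_mul] at h8
      change _ = pat G f (f u) (f v) at h8
      rw [pat_of_adj h6] at h8
      obtain ⟨c, -, hc⟩ := Finset.exists_ne_zero_of_sum_ne_zero
        (show ∑ c, M c (ι u) (ι v) ≠ 0 by omega)
      exact ⟨c, h6.ne, by omega⟩

end Pool.Agent.Helper37LA
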