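import Pool.Agent.Helper37LA.B2

set_option autoImplicit false

/-!
Linear forests in graphs with homogeneous classes whose quotient has a spanning closed trail.
-/

namespace Pool.Agent.Helper37LA

open Finset SimpleGraph Pool.Agent.X76.Det

variable {V X : Type} [Fintype V] [Fintype X]

theorem cov_coreS [Nonempty V] (G : SimpleGraph V) (f : V → X) (hf : Function.Surjective f)
    (hh : Homog G f) (K : ℕ) (hK : 1 ≤ K) (hdeg : ∀ v, (G.neighborSet v).ncard + 1 ≤ 2 * K)
    (S : X → X → ℕ) (hSs : ∀ i j, S i j = S j i) (hS0 : ∀ i, S i i = 0)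
    (hSe : ∀ i, Even (∑ j, S i j))
    (hSw : ∀ i j, 0 < S i j → (∃ x y, G.Adj x y ∧ f x = i ∧ f y = j) ∧
      K * S i j ≤ {w | f w = i}.ncard * {w | f w = j}.ncard)
    (hSc : ∀ i j, Relation.ReflTransGen (fun a b => 0 < S a b) i j) :
    H931R3.LA.Cov G K := by
  classical
  obtain ⟨v0⟩ := ‹Nonempty V›
  let g : X → ℕ := fun i => {w | f w = i}.ncard
  let A : X → X → ℕ := pat G f
  have hg : ∀ i, 1 ≤ g i := by
    intro i
    obtain ⟨v, hv⟩ := hf i
    exact (Set.ncard_pos (Set.toFinite _)).2 ⟨v, hv⟩
  let dX : X → ℕ := fun i => ∑ j, (if j = i then g j - 1 else g j) * A i j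
  have hdX : ∀ v, (G.neighborSet v).ncard = dX (f v) := fun v => degree_formula hh v
  have hdX1 : ∀ i, dX i + 1 ≤ 2 * K := by
    intro i
    obtain ⟨v, rfl⟩ := hf i
    rw [← hdX]
    exact hdeg v
  let s : X → ℕ := fun i => 2 * K - dX i
  have hrow : ∀ i, ∑ j, (if j = i then g j - 1 else g j) * A i j + s i = 2 * K := by
    intro i
    have h1 := hdX1 i
    change dX i + (2 * K - dX i) = 2 * K
    omega
  -- the total
  have hcard : ∑ i, g i = Fintype.card V := by
    have h2 : (univ : Finset V).card = ∑ j, ((univ : Finset V).filter fun w => f w = j).card :=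
      Finset.card_eq_sum_card_fiberwise (fun w _ => mem_univ (f w))
    rw [← Finset.card_univ, h2]
    apply Finset.sum_congr rfl
    intro j _
    simp only [g]
    rw [Set.ncard_eq_toFinset_card']
    congr 1
    ext w
    simp
  have hn1 : 1 ≤ Fintype.card V := Fintype.card_pos_iff.2 ⟨v0⟩
  have hR : 2 * K ≤ ∑ i, g i * s i := by
    rcases Nat.lt_or_ge (Fintype.card V) (2 * K) with hn | hn
    · have hd : ∀ i, dX i + 1 ≤ Fintype.card V := by
        intro i
        obtain ⟨v, rfl⟩ := hf i
        rw [← hdX]
        have h1 : (G.neighborSet v).ncard < (Set.univ : Set V).ncard := by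
          apply Set.ncard_lt_ncard _ (Set.toFinite _)
          rw [Set.ssubset_univ_iff]
          intro h2
          have h3 : v ∈ G.neighborSet v := by rw [h2]; trivial
          exact G.loopless.irrefl v h3
        rw [Set.ncard_univ, Nat.card_eq_fintype_card] at h1
        exact h1
      have h1 : ∑ i, g i * (2 * K + 1 - Fintype.card V) ≤ ∑ i, g i * s i := by
        apply Finset.sum_le_sum
        intro i _
        apply Nat.mul_le_mul_left
        have := hd i
        change _ ≤ 2 * K - dX i
        omega
      rw [← Finset.sum_mul, hcard] at h1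
      refine le_trans ?_ h1
      obtain ⟨e, he⟩ : ∃ e, 2 * K = Fintype.card V + e := ⟨2 * K - Fintype.card V, by omega⟩
      rw [he, show Fintype.card V + e + 1 - Fintype.card V = e + 1 by omega]
      nlinarith [Nat.mul_le_mul_right e hn1]
    · have h1 : ∑ i, g i * 1 ≤ ∑ i, g i * s i := by
        apply Finset.sum_le_sum
        intro i _
        apply Nat.mul_le_mul_left
        have := hdX1 i
        change 1 ≤ 2 * K - dX i
        omega
      rw [← Finset.sum_mul, hcard, Nat.mul_one] at h1
      exact hn.trans h1
  obtain ⟨m, hm1, hm2, hm3, hm4, hm5, hm6, hm7, hm8, hm9⟩ :=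
    exists_classesS g A s K hK hg (pat_symm G f) hrow hR S hSs hS0 hSe (by
      intro i j _
      rcases Nat.eq_zero_or_pos (S i j) with h | h
      · rw [h, Nat.mul_zero]
        exact Nat.zero_le _
      · obtain ⟨⟨x, y, h1, h2, h3⟩, h4⟩ := hSw i j h
        have h5 : A i j = 1 := by
          rw [← h2, ← h3]
          exact pat_of_adj h1
        rw [h5, Nat.mul_one]
        exact h4)
  -- connectedness
  have hreach : ∀ c i j, (supp (m c)).Reachable (some i) (some j) := by
    intro c i j
    induction hSc i j with
    | refl => exact Reachable.refl _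
    | @tail a b _ h2 ih =>
      refine ih.trans (SimpleGraph.Adj.reachable ?_)
      have h3 : (some a : Option X) ≠ some b := by
        intro h4
        have h5 := Option.some.inj h4
        rw [h5, hS0] at h2
        omega
      refine ⟨h3, hm9 a b h2 c, ?_⟩
      exact hm9 b a (by rw [hSs]; exact h2) c
  have hcon : ∀ c, (supp (m c)).Connected := by
    intro c
    rw [SimpleGraph.connected_iff_exists_forall_reachable]
    refine ⟨some (f v0), ?_⟩
    have h1 : ∀ i : X, (supp (m c)).Reachable (some (f v0)) (some i) := by
      intro i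
      exact hreach c _ _
    rintro (_ | i)
    · obtain ⟨i, hi⟩ := hm8 c
      have h2 : (supp (m c)).Adj (some i) none := by
        refine ⟨by simp, ?_, hi⟩
        rw [hm1]
        exact hi
      exact (h1 i).trans h2.reachable
    · exact h1 i
  have haO : ∀ u v, aO A s u v = aO A s v u := by
    rintro (_ | i) (_ | j)
    · rfl
    · rfl
    · rfl
    · exact pat_symm G f i j
  have hSt : StP (fun u : Option X => u ≠ none) (gO g) (aO A s) m := by
    refine ⟨?_, hm1, hm2, hm3, ?_, ?_, ?_, hm7, hcon⟩
    · rintro (_ | i) h
      · exact absurd rfl h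
      · exact hg i
    · rintro (_ | i) h
      · exact absurd rfl h
      · exact hm4 i
    · rintro c (_ | i) h
      · exact hm5 c
      · exact absurd (by simp) h
    · rintro c (_ | i) h
      · exact absurd rfl h
      · exact hm6 c i
  obtain ⟨Y, hY, π, g', M, h1, h2, h3, h4, h5⟩ := detachP _ (Option X) _ _ _ m haO hSt rfl
  obtain ⟨e, he⟩ := fib_equiv π (Option.map f) (by
    rintro (_ | i)
    · rw [h2 none (by simp)]
      have h6 : {w : Option V | Option.map f w = none} = {none} := by
        ext w
        simp
      rw [h6, Set.ncard_singleton]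
    · rw [h1 (some i) (by simp)]
      change {w | f w = i}.ncard = _
      have h6 : {w : Option V | Option.map f w = some i} = some '' {w | f w = i} := by
        ext w
        rcases w with _ | w
        · simp
        · simp
      rw [h6, Set.ncard_image_of_injective _ (Option.some_injective V)])
  let ι : V → Y := fun v => e.symm (some v)
  have hιi : Function.Injective ι := e.symm.injective.comp (Option.some_injective V)
  have hιπ : ∀ v, π (ι v) = some (f v) := by
    intro v
    rw [← he, e.apply_symm_apply]
    rfl
  have hg' : ∀ y, g' y = 1 := by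
    intro y
    by_cases h : π y = none
    · rw [h4 y (by simpa using h), h]
      rfl
    · exact h3 y h
  let z : Y := e.symm none
  have hz : ∀ y, y ≠ z → π y ≠ none := by
    intro y hy h
    apply hy
    rw [← he] at h
    have h6 : e y = none := by
      rcases hey : e y with _ | v
      · rfl
      · rw [hey] at h
        cases h
    change y = e.symm none
    rw [← h6, e.symm_apply_apply]
  let F : Fin K → SimpleGraph V := fun c =>
    { Adj := fun u v => u ≠ v ∧ 1 ≤ M c (ι u) (ι v)
      symm := ⟨fun u v h => ⟨h.1.symm, by rw [h5.symm]; exact h.2⟩⟩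
      loopless := ⟨fun u h => h.1 rfl⟩ }
  refine ⟨F, ?_, ?_⟩
  · intro c
    refine lf_of_class (M c) (h5.symm c) z ?_ (h5.conn c) ι hιi ?_ (F c) ?_
    · intro y hy
      rw [h5.deg c y (hz y hy), hg']
    · intro w h
      have := e.symm.injective h
      cases this
    · intro u v h
      exact h.2
  · ext u v
    rw [iSup_adj]
    constructor
    · rintro ⟨c, h6, h7⟩
      have h8 := h5.mult (ι u) (ι v) (hιi.ne h6)
      have h9 : M c (ι u) (ι v) ≤ ∑ c, M c (ι u) (ι v) :=
        Finset.single_le_sum (f := fun c => M c (ι u) (ι v)) (fun i _ => Nat.zero_le _)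
          (mem_univ c)
      rw [hg', hg', hιπ, hιπ, one_mul, one_mul] at h8
      change _ = pat G f (f u) (f v) at h8
      rw [adj_iff hh h6]
      have h10 := pat_le G f (f u) (f v)
      omega
    · intro h6
      have h8 := h5.mult (ι u) (ι v) (hιi.ne h6.ne)
      rw [hg', hg', hιπ, hιπ, one_mul, one_mul] at h8
      change _ = pat G f (f u) (f v) at h8
      rw [pat_of_adj h6] at h8
      obtain ⟨c, -, hc⟩ := Finset.exists_ne_zero_of_sum_ne_zero
        (show ∑ c, M c (ι u) (ι v) ≠ 0 by omega)
      exact ⟨c, h6.ne, by omega⟩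

end Pool.Agent.Helper37LA
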