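import Pool.Agent.Helper37LA.C
import Pool.Agent.X76.Chr4

set_option autoImplicit false

/-!
Hamilton decompositions of regular graphs of even degree with homogeneous classes.
-/

namespace Pool.Agent.Helper37LA

open Finset SimpleGraph Pool.Agent.X76.Det

variable {V X : Type} [Fintype V] [Fintype X]

theorem hd_core (G : SimpleGraph V) (f : V → X) (hf : Function.Surjective f) (hh : Homog G f)
    (k : ℕ) (hconn : G.Connected) (hdeg : ∀ v, (G.neighborSet v).ncard = 2 * k)
    (hprod : ∀ x y, G.Adj x y → f x ≠ f y →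
      2 * k ≤ {w | f w = f x}.ncard * {w | f w = f y}.ncard + 1) :
    ∃ F : Fin k → ZMod (Fintype.card V) → V, Pool.Agent.X76.Blow.HD G (Fintype.card V) F := by
  classical
  obtain ⟨v0⟩ := hconn.nonempty
  let g : X → ℕ := fun i => {w | f w = i}.ncard
  let A : X → X → Prop := fun i j => pat G f i j = 1
  have hAs : ∀ i j, A i j → A j i := by
    intro i j h
    change pat G f j i = 1
    rw [pat_symm]
    exact h
  have hind : ∀ i j, ind A i j = pat G f i j := by
    intro i j
    have h1 := pat_le G f i j
    unfold ind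
    by_cases h : A i j
    · rw [if_pos h]; exact h.symm
    · rw [if_neg h]
      change ¬ pat G f i j = 1 at h
      omega
  have hg : ∀ i, 1 ≤ g i := by
    intro i
    obtain ⟨v, hv⟩ := hf i
    exact (Set.ncard_pos (Set.toFinite _)).2 ⟨v, hv⟩
  have hrow : ∀ i, ∑ j, (if j = i then g j - 1 else g j) * pat G f i j = 2 * k := by
    intro i
    obtain ⟨v, rfl⟩ := hf i
    rw [← hdeg v]
    exact (degree_formula hh v).symm
  -- loops
  have hev : ∀ i, Even (g i * ((g i - 1) * pat G f i i)) := by
    intro i
    rw [← mul_assoc]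
    exact (Nat.even_mul_pred_self (g i)).mul_right _
  choose l hl using fun i => hev i
  have hl2 : ∀ i, g i * ((g i - 1) * pat G f i i) = 2 * l i := fun i => by rw [hl i]; ring
  let F : X → X → ℕ := fun i j =>
    if j = i then g i * ((g i - 1) * pat G f i i) else g i * g j * pat G f i j
  have hF : ∀ i, g i * ∑ j, (if j = i then g j - 1 else g j) * pat G f i j = ∑ j, F i j := by
    intro i
    rw [Finset.mul_sum]
    apply Finset.sum_congr rfl
    intro j _
    simp only [F]
    by_cases h : j = i
    · subst h; rw [if_pos rfl, if_pos rfl]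
    · rw [if_neg h, if_neg h]; ring
  have hF2 : ∀ i, ∑ j, F i j = 2 * (k * g i) := by
    intro i
    rw [← hF, hrow i]
    ring
  have hFo : ∀ i, ∑ j, F i j = 2 * l i + ∑ j, (if i = j then 0 else g i * g j * pat G f i j) := by
    intro i
    rw [← Finset.add_sum_erase univ _ (mem_univ i),
      ← Finset.add_sum_erase univ (fun j => if i = j then 0 else g i * g j * pat G f i j)
        (mem_univ i),
      if_pos rfl, zero_add]
    congr 1
    · simp only [F, if_true]
      exact hl2 i
    · apply Finset.sum_congr rfl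
      intro j hj
      have hj' := Finset.ne_of_mem_erase hj
      simp only [F]
      rw [if_neg hj', if_neg (Ne.symm hj')]
  let w : X → X → ℕ := fun i j => if i = j then 0 else g i * g j * pat G f i j
  have hws : ∀ i j, w i j = w j i := by
    intro i j
    simp only [w]
    by_cases h : i = j
    · rw [if_pos h, if_pos h.symm]
    · rw [if_neg h, if_neg (Ne.symm h), pat_symm G f i j]; ring
  have hw0 : ∀ i, w i i = 0 := fun i => if_pos rfl
  obtain ⟨o, ho1, ho2, ho3, ho4⟩ := orient2 w hws hw0 (fun i => k * g i - l i) (by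
    intro i
    have h1 := hF2 i
    have h2 := hFo i
    simp only [w]
    omega)
  have hlk : ∀ i, l i ≤ k * g i := by
    intro i
    have h1 := hF2 i
    have h2 := hFo i
    omega
  have hod : ∀ i, o i i = 0 := by
    intro i
    have := ho1 i i
    rw [hw0] at this
    omega
  let Γ : SimpleGraph X :=
    { Adj := fun i j => i ≠ j ∧ ∃ u v, G.Adj u v ∧ f u = i ∧ f v = j
      symm := ⟨fun i j h => ⟨h.1.symm, by
        obtain ⟨u, v, h1, h2, h3⟩ := h.2
        exact ⟨v, u, h1.symm, h3, h2⟩⟩⟩
      loopless := ⟨fun i h => h.1 rfl⟩ }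
  have hreach : ∀ u v, G.Reachable u v → Γ.Reachable (f u) (f v) := by
    intro u v huv
    obtain ⟨p⟩ := huv
    induction p with
    | nil => exact Reachable.refl _
    | @cons a b c h p ih =>
      refine Reachable.trans ?_ ih
      by_cases hab : f a = f b
      · rw [hab]
      · exact SimpleGraph.Adj.reachable (⟨hab, a, b, h, rfl, rfl⟩ : Γ.Adj (f a) (f b))
  have hΓ : Γ.Connected := by
    rw [SimpleGraph.connected_iff_exists_forall_reachable]
    refine ⟨f v0, fun i => ?_⟩
    obtain ⟨v, rfl⟩ := hf i
    exact hreach v0 v (hconn.preconnected v0 v)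
  refine HD_of_orient A hAs f k g (fun _ => rfl) hg Γ hΓ
    (fun i j => o i j + if i = j then l i else 0) ?_ ?_ ?_ ?_ ?_ G ?_
  · intro i j hij
    beta_reduce
    rw [if_neg hij, if_neg (Ne.symm hij), add_zero, add_zero, ho1, hind]
    exact if_neg hij
  · intro i
    beta_reduce
    rw [if_pos rfl, hod, zero_add, hind, hl2]
  · intro i
    rw [Finset.sum_add_distrib, ho2]
    have := hlk i
    simp only [Finset.sum_ite_eq, mem_univ, if_true]
    omega
  · intro j
    rw [Finset.sum_add_distrib, ho3]
    have := hlk j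
    have h5 : ∑ i, (if i = j then l i else 0) = l j := by simp
    rw [h5]
    omega
  · rintro i j ⟨hij, u, v, huv, rfl, rfl⟩
    beta_reduce
    rw [if_neg hij, if_neg (Ne.symm hij), add_zero, add_zero]
    have h1 := ho1 (f u) (f v)
    have h2 : w (f u) (f v) = g (f u) * g (f v) := by
      simp only [w]
      rw [if_neg hij, pat_of_adj huv, Nat.mul_one]
    rw [h2] at h1
    have h3 := hprod u v huv hij
    change 2 * k ≤ g (f u) * g (f v) + 1 at h3
    omega
  · intro x y
    constructor
    · intro h
      exact ⟨h.ne, pat_of_adj h⟩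
    · rintro ⟨h1, h2⟩
      exact (adj_iff hh h1).2 h2

theorem cov_even (G : SimpleGraph V) (f : V → X) (hf : Function.Surjective f) (hh : Homog G f)
    (k : ℕ) (hk : 1 ≤ k) (hconn : G.Connected) (hdeg : ∀ v, (G.neighborSet v).ncard = 2 * k)
    (hprod : ∀ x y, G.Adj x y → f x ≠ f y →
      2 * k ≤ {w | f w = f x}.ncard * {w | f w = f y}.ncard + 1) :
    H931R3.LA.Cov G (k + 1) := by
  classical
  obtain ⟨F, hF⟩ := hd_core G f hf hh k hconn hdeg hprod
  obtain ⟨v0⟩ := hconn.nonempty
  have hne : NeZero (Fintype.card V) := ⟨(Fintype.card_pos_iff.2 ⟨v0⟩).ne'⟩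
  have hcard : 2 * k ≤ Fintype.card V := by
    rw [← hdeg v0, ← Nat.card_eq_fintype_card, ← Set.ncard_univ]
    exact Set.ncard_le_ncard (Set.subset_univ _) (Set.toFinite _)
  exact (Pool.Agent.X76.Blow.rank_of_HD2 hF hcard hk).cov

end Pool.Agent.Helper37LA
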