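import Pool.Agent.Helper37LA.D

set_option autoImplicit false

/-!
Linear forests component by component.
-/

namespace Pool.Agent.Helper37LA

open SimpleGraph

theorem cov_of_components {V : Type} [Finite V] (G : SimpleGraph V) (K : ℕ)
    (h : ∀ C : G.ConnectedComponent, H931R3.LA.Cov (G.induce C.supp) K) : H931R3.LA.Cov G K := by
  classical
  choose F hF1 hF2 using h
  let H : Fin K → SimpleGraph V := fun i =>
    { Adj := fun u v => ∃ (C : G.ConnectedComponent) (hu : u ∈ C.supp) (hv : v ∈ C.supp),
        (F C i).Adj ⟨u, hu⟩ ⟨v, hv⟩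
      symm := ⟨fun u v h => by
        obtain ⟨C, hu, hv, h⟩ := h
        exact ⟨C, hv, hu, h.symm⟩⟩
      loopless := ⟨fun u h => by
        obtain ⟨C, hu, hv, h⟩ := h
        exact h.ne rfl⟩ }
  have huniq : ∀ (C C' : G.ConnectedComponent) (u : V), u ∈ C.supp → u ∈ C'.supp → C = C' := by
    intro C C' u h1 h2
    rw [ConnectedComponent.mem_supp_iff] at h1 h2
    rw [← h1, ← h2]
  have hres : ∀ (C : G.ConnectedComponent) i (u v : V) (hu : u ∈ C.supp) (hv : v ∈ C.supp),
      (H i).Adj u v ↔ (F C i).Adj ⟨u, hu⟩ ⟨v, hv⟩ := by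
    intro C i u v hu hv
    constructor
    · rintro ⟨C', hu', hv', h⟩
      have := huniq C C' u hu hu'
      subst this
      exact h
    · intro h
      exact ⟨C, hu, hv, h⟩
  have hsame : ∀ i u v, (H i).Adj u v → ∀ C : G.ConnectedComponent, u ∈ C.supp → v ∈ C.supp := by
    rintro i u v ⟨C', hu', hv', h⟩ C hu
    have := huniq C C' u hu hu'
    subst this
    exact hv'
  refine ⟨H, fun i => ⟨?_, ?_⟩, ?_⟩
  · intro v p hp
    let C := G.connectedComponentMk v
    have hv : v ∈ C.supp := rfl
    have hs : ∀ x ∈ p.support, x ∈ C.supp := by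
      have hgen : ∀ (a b : V) (q : (H i).Walk a b), a ∈ C.supp → ∀ x ∈ q.support, x ∈ C.supp := by
        intro a b q
        induction q with
        | nil =>
          intro ha x hx
          rw [Walk.support_nil, List.mem_singleton] at hx
          rw [hx]; exact ha
        | cons hab q ih =>
          intro ha x hx
          rw [Walk.support_cons, List.mem_cons] at hx
          rcases hx with rfl | hx
          · exact ha
          · exact ih (hsame i _ _ hab C ha) x hx
      exact hgen v v p hv
    have h1 : ((p.induce C.supp hs).map (Embedding.induce C.supp).toHom).IsCycle := by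
      rw [Walk.map_induce]
      exact hp
    have h2 : (p.induce C.supp hs).IsCycle :=
      (Walk.isCycle_map_iff_of_injective (p := p.induce C.supp hs)
        (f := (Embedding.induce (G := H i) C.supp).toHom) Subtype.val_injective).1 h1
    have h3 : (H i).induce C.supp = F C i := by
      ext ⟨a, ha⟩ ⟨b, hb⟩
      exact hres C i a b ha hb
    have h4 : ((H i).induce C.supp).IsAcyclic := by
      rw [h3]
      exact (hF1 C i).1
    exact h4 _ h2
  · intro v
    let C := G.connectedComponentMk v
    have hv : v ∈ C.supp := rfl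
    have h1 : (H i).neighborSet v = Subtype.val '' ((F C i).neighborSet ⟨v, hv⟩) := by
      ext w
      simp only [mem_neighborSet, Set.mem_image]
      constructor
      · intro h
        have hw := hsame i v w h C hv
        exact ⟨⟨w, hw⟩, (hres C i v w hv hw).1 h, rfl⟩
      · rintro ⟨⟨w', hw'⟩, h, rfl⟩
        exact (hres C i v w' hv hw').2 h
    rw [h1, Set.ncard_image_of_injective _ Subtype.val_injective]
    exact (hF1 C i).2 _
  · ext u v
    rw [iSup_adj]
    constructor
    · rintro ⟨i, C, hu, hv, h⟩
      have h1 : (⨆ i, F C i).Adj ⟨u, hu⟩ ⟨v, hv⟩ := by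
        rw [iSup_adj]
        exact ⟨i, h⟩
      rw [hF2] at h1
      exact h1
    · intro h
      let C := G.connectedComponentMk u
      have hu : u ∈ C.supp := rfl
      have hv : v ∈ C.supp := by
        rw [ConnectedComponent.mem_supp_iff]
        exact (ConnectedComponent.sound h.symm.reachable)
      have h1 : (⨆ i, F C i).Adj ⟨u, hu⟩ ⟨v, hv⟩ := by
        rw [hF2]
        exact h
      rw [iSup_adj] at h1
      obtain ⟨i, hi⟩ := h1
      exact ⟨i, C, hu, hv, hi⟩

/-- the hypotheses restrict to a component -/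
theorem restrict {V C : Type} [Finite V] (G : SimpleGraph V) (f : V → C)
    (hh : ∀ x y x' y', x ≠ y → x' ≠ y' → f x = f x' → f y = f y' → G.Adj x y → G.Adj x' y')
    (L : ℕ) (hprod : ∀ x y, G.Adj x y → f x ≠ f y →
      L ≤ {w | f w = f x}.ncard * {w | f w = f y}.ncard + 1) (c : G.ConnectedComponent) :
    ∃ (X : Type) (_ : Fintype X) (_ : Fintype c.supp) (f' : c.supp → X),
      Function.Surjective f' ∧ Homog (G.induce c.supp) f' ∧
      (G.induce c.supp).Connected ∧
      (∀ v, ((G.induce c.supp).neighborSet v).ncard = (G.neighborSet v.1).ncard) ∧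
      ∀ x y, (G.induce c.supp).Adj x y → f' x ≠ f' y →
        L ≤ {w | f' w = f' x}.ncard * {w | f' w = f' y}.ncard + 1 := by
  classical
  have : Fintype V := Fintype.ofFinite V
  let f0 : c.supp → C := fun v => f v.1
  let f' : c.supp → Set.range f0 := Set.rangeFactorization f0
  have hf' : ∀ x y, f' x = f' y ↔ f x.1 = f y.1 := by
    intro x y
    simp only [f', Set.rangeFactorization, Subtype.mk.injEq, f0]
  refine ⟨Set.range f0, Fintype.ofFinite _, Fintype.ofFinite _, f', Set.rangeFactorization_surjective,
    ?_, (c.maximal_connected_induce_supp).prop, ?_, ?_⟩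
  · intro x y x' y' h1 h2 h3 h4 h5
    exact hh x.1 y.1 x'.1 y'.1 (fun h => h1 (Subtype.ext h)) (fun h => h2 (Subtype.ext h))
      ((hf' x x').1 h3) ((hf' y y').1 h4) h5
  · rintro ⟨v, hv⟩
    have h1 : G.neighborSet v = Subtype.val '' ((G.induce c.supp).neighborSet ⟨v, hv⟩) := by
      ext w
      simp only [mem_neighborSet, Set.mem_image]
      constructor
      · intro h
        have hw : w ∈ c.supp := by
          rw [ConnectedComponent.mem_supp_iff] at hv ⊢
          rw [← hv]
          exact (ConnectedComponent.sound h.symm.reachable)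
        exact ⟨⟨w, hw⟩, h, rfl⟩
      · rintro ⟨⟨w', hw'⟩, h, rfl⟩
        exact h
    rw [h1, Set.ncard_image_of_injective _ Subtype.val_injective]
  · have hcl : ∀ x y : c.supp, (G.induce c.supp).Adj x y → f' x ≠ f' y →
        {w : c.supp | f' w = f' x}.ncard = {w | f w = f x.1}.ncard := by
      intro x y hxy hne
      have h1 : {w | f w = f x.1} = Subtype.val '' {w : c.supp | f' w = f' x} := by
        ext w
        simp only [Set.mem_ofPred_eq, Set.mem_image]
        constructor
        · intro h
          have hne' : f x.1 ≠ f y.1 := fun h' => hne ((hf' x y).2 h')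
          have hadj : G.Adj w y.1 := hh x.1 y.1 w y.1 (fun h' => hne' (by rw [h']))
            (fun h' => hne' (by rw [← h, h'])) h.symm rfl hxy
          have hw : w ∈ c.supp := by
            have hy := y.2
            rw [ConnectedComponent.mem_supp_iff] at hy ⊢
            rw [← hy]
            exact (ConnectedComponent.sound hadj.reachable)
          exact ⟨⟨w, hw⟩, (hf' _ _).2 h, rfl⟩
        · rintro ⟨w', h, rfl⟩
          exact (hf' _ _).1 h
      rw [h1, Set.ncard_image_of_injective _ Subtype.val_injective]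
    intro x y hxy hne
    rw [hcl x y hxy hne, hcl y x hxy.symm (Ne.symm hne)]
    exact hprod x.1 y.1 hxy (fun h => hne ((hf' x y).2 h))

/-- graphs with homogeneous classes -/
theorem cov_general {V C : Type} [Finite V] (G : SimpleGraph V) (f : V → C)
    (hh : ∀ x y x' y', x ≠ y → x' ≠ y' → f x = f x' → f y = f y' → G.Adj x y → G.Adj x' y')
    (K : ℕ) (hK : 1 ≤ K) (hdeg : ∀ v, (G.neighborSet v).ncard + 1 ≤ 2 * K)
    (hprod : ∀ x y, G.Adj x y → f x ≠ f y →
      2 * K ≤ {w | f w = f x}.ncard * {w | f w = f y}.ncard + 1) :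
    H931R3.LA.Cov G K := by
  apply cov_of_components
  intro c
  obtain ⟨X, hX, hc, f', h1, h2, h3, h4, h5⟩ := restrict G f hh (2 * K) hprod c
  exact cov_core _ f' h1 h2 K hK h3 (fun v => by rw [h4]; exact hdeg _) h5

theorem cov_general_even {V C : Type} [Finite V] (G : SimpleGraph V) (f : V → C)
    (hh : ∀ x y x' y', x ≠ y → x' ≠ y' → f x = f x' → f y = f y' → G.Adj x y → G.Adj x' y')
    (k : ℕ) (hk : 1 ≤ k) (hdeg : ∀ v, (G.neighborSet v).ncard = 2 * k)
    (hprod : ∀ x y, G.Adj x y → f x ≠ f y →
      2 * k ≤ {w | f w = f x}.ncard * {w | f w = f y}.ncard + 1) :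
    H931R3.LA.Cov G (k + 1) := by
  apply cov_of_components
  intro c
  obtain ⟨X, hX, hc, f', h1, h2, h3, h4, h5⟩ := restrict G f hh (2 * k) hprod c
  exact cov_even _ f' h1 h2 k hk h3 (fun v => by rw [h4]; exact hdeg _) h5

end Pool.Agent.Helper37LA
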